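import Pool.Agent.Helper51.BW.Spec
import Pool.Agent.Helper51.BW.Base

/-!
# BW swarm, part LOW1: lower bound of the expectations, first type
-/

set_option autoImplicit false

open MeasureTheory Filter Topology

namespace Pool.Agent.Helper94.BW.LOW1

open Pool.Agent.Helper51.BW

lemma exists_pm {d : ℕ} (p : ℕ → D d → ℝ) (hp : ∀ i e, 0 < p i e) (i : ℕ) :
    ∃ pm : ℝ, 0 < pm ∧ ∀ m ≤ i, ∀ e, pm ≤ p m e := by
  have h1 : ∀ m, ∃ c : ℝ, 0 < c ∧ ∀ e, c ≤ p m e := by
    intro m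
    rcases isEmpty_or_nonempty (D d) with h | h
    · exact ⟨1, one_pos, fun e => (h.false e).elim⟩
    · obtain ⟨e0, he0⟩ := Finite.exists_min (p m)
      exact ⟨p m e0, hp m e0, he0⟩
  induction i with
  | zero =>
    obtain ⟨c, hc, h⟩ := h1 0
    exact ⟨c, hc, fun m hm e => by
      obtain rfl : m = 0 := by omega
      exact h e⟩
  | succ i ih =>
    obtain ⟨c, hc, h⟩ := ih
    obtain ⟨c', hc', h'⟩ := h1 (i + 1)
    refine ⟨min c c', lt_min hc hc', fun m hm e => ?_⟩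
    rcases Nat.lt_or_ge m (i + 1) with hlt | hge
    · exact (min_le_left _ _).trans (h m (by omega) e)
    · obtain rfl : m = i + 1 := by omega
      exact (min_le_right _ _).trans (h' e)

/-- The good event: both `j` and `j + k` are cut times and `S_j` is a new point. -/
def Th {d : ℕ} {Ω : Type} (X : ℕ → ℕ → Ω → V d) (j k : ℕ) : Set Ω :=
  {ω | IsCut (fun n => X 0 n ω) j ∧ IsCut (fun n => X 0 n ω) (j + k) ∧
    ∀ s < j, X 0 s ω ≠ X 0 j ω}

lemma meas_ne {d : ℕ} {Ω : Type} (X : ℕ → ℕ → Ω → V d) (s t : ℕ) :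
    MeasurableSet[sig0 X] {ω | X 0 s ω ≠ X 0 t ω} := by
  have hm : ∀ s, @Measurable Ω (V d) (sig0 X) _ (X 0 s) := by
    intro s
    have h1 : MeasurableSpace.comap (X 0 s) inferInstance ≤ sig0 X :=
      le_iSup (fun s => MeasurableSpace.comap (X 0 s) inferInstance) s
    exact fun u hu => h1 _ ⟨u, hu, rfl⟩
  exact (measurableSet_eq_fun (hm s) (hm t)).compl

lemma meas_cut {d : ℕ} {Ω : Type} (X : ℕ → ℕ → Ω → V d) (b : ℕ) :
    MeasurableSet[sig0 X] {ω | IsCut (fun n => X 0 n ω) b} := by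
  have h1 : {ω | IsCut (fun n => X 0 n ω) b} =
      ⋂ s, ⋂ t, ⋂ (_ : s ≤ b), ⋂ (_ : b < t), {ω | X 0 s ω ≠ X 0 t ω} := by
    ext ω
    simp only [Set.mem_ofPred_eq, Set.mem_iInter, IsCut]
  rw [h1]
  refine MeasurableSet.iInter fun s => MeasurableSet.iInter fun t => MeasurableSet.iInter fun _ =>
    MeasurableSet.iInter fun _ => meas_ne X s t

lemma meas_Th {d : ℕ} {Ω : Type} (X : ℕ → ℕ → Ω → V d) (j k : ℕ) :
    MeasurableSet[sig0 X] (Th X j k) := by
  have h1 : Th X j k = {ω | IsCut (fun n => X 0 n ω) j} ∩ ({ω | IsCut (fun n => X 0 n ω) (j + k)} ∩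
      ⋂ s, ⋂ (_ : s < j), {ω | X 0 s ω ≠ X 0 j ω}) := by
    ext ω
    simp only [Th, Set.mem_ofPred_eq, Set.mem_iInter, Set.mem_inter_iff]
  rw [h1]
  exact (meas_cut X j).inter ((meas_cut X (j + k)).inter
    (MeasurableSet.iInter fun s => MeasurableSet.iInter fun _ => meas_ne X s j))

lemma Th_eq {d : ℕ} {Ω : Type} (X : ℕ → ℕ → Ω → V d) (j k : ℕ) :
    {ω | ∀ T, j + k ≤ T → Q1 j k T (fun n => X 0 n ω)} = Th X j k := by
  ext ω
  simp only [Th, Q1, CutT, IsCut, Set.mem_ofPred_eq]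
  constructor
  · intro h
    refine ⟨fun s t hs ht => ?_, fun s t hs ht => ?_, (h (j + k) le_rfl).2.2⟩
    · exact (h (j + k + t) (by omega)).1 s t hs ht (by omega)
    · exact (h (j + k + t) (by omega)).2.1 s t hs ht (by omega)
  · rintro ⟨h1, h2, h3⟩ T hT
    exact ⟨fun s t hs ht _ => h1 s t hs ht, fun s t hs ht _ => h2 s t hs ht, h3⟩

/-- LOW1 -/
theorem main (hT1 : S_TYPE1) (hHOR : S_HOR) (hQL1 : S_QL1) (hLOWR : S_LOWR) : S_LOW1 := by
  intro d Ω _ μ _ p X hp hp1 hX i hi hreg hcrit hn M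
  obtain ⟨n, hn1, hn2⟩ := hn
  obtain ⟨c, hc, hT⟩ := hT1 d (p 0) (lhat (p i)) n (hp 0) (hp1 0) hcrit hn1 hn2
  obtain ⟨pm, hpm, hpm'⟩ := exists_pm p hp i
  -- number of terms
  set m : ℕ := ⌈8 * M / (pm * c)⌉₊ with hm
  have hmM : M ≤ pm / 8 * (m * c) := by
    have h1 : 8 * M / (pm * c) ≤ m := Nat.le_ceil _
    rw [div_le_iff₀ (by positivity)] at h1
    nlinarith
  obtain ⟨K0, hK0⟩ := hLOWR d Ω μ p X hp hp1 hX i hreg pm (Finset.Icc 1 m) hpm
    (fun e => hpm' i le_rfl e)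
  refine ⟨K0, 0, fun j _ => ?_⟩
  have hkey := hK0 K0 le_rfl j (j + m + 1) (Th X j) (fun k _ => meas_Th X j k)
    (fun k hk => by
      rw [Finset.mem_Icc] at hk
      omega)
    (fun k _ ω hω => hω.2.2)
    (fun K' s E l hK' hK'ne hE hEω hl hl' => by
      refine hQL1 d Ω μ p X hp hp1 hX i hi hreg s j (j + m + 1) K' pm E l hpm hpm' hE hK'ne ?_ ?_
        hl hl'
      · intro k hk
        have := hK' hk
        rw [Finset.mem_Icc] at this
        omega
      · intro ω hω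
        obtain ⟨h1, h2⟩ := hEω ω hω
        obtain ⟨k0, hk0⟩ := hK'ne
        exact ⟨h1, (h2 k0 hk0).1, fun k hk => (h2 k hk).2.1⟩)
  refine le_trans ?_ hkey
  refine hmM.trans ?_
  refine mul_le_mul_of_nonneg_left ?_ (by positivity)
  have hterm : ∀ k ∈ Finset.Icc 1 m, c ≤ ∫ ω in Th X j k,
      Real.exp (ip (lhat (p i)) (X 0 j ω - X 0 (j + k) ω)) ∂μ := by
    intro k hk
    rw [Finset.mem_Icc] at hk
    have h1 := hHOR d Ω μ p X hp hp1 hX (fun T S => Q1 j k T S) (j + k)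
      (fun S => Real.exp (ip (lhat (p i)) (S j - S (j + k))))
      (fun T S hQ => ⟨fun s t hs ht htT => hQ.1 s t hs ht (by omega),
        fun s t hs ht htT => hQ.2.1 s t hs ht (by omega), hQ.2.2⟩)
      (fun T hTT S S' hSS hQ => by
        refine ⟨fun s t hs ht htT => ?_, fun s t hs ht htT => ?_, fun s hs => ?_⟩
        · rw [← hSS s (by omega), ← hSS t (by omega)]
          exact hQ.1 s t hs ht htT
        · rw [← hSS s (by omega), ← hSS t (by omega)]
          exact hQ.2.1 s t hs ht htT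
        · rw [← hSS s (by omega), ← hSS j (by omega)]
          exact hQ.2.2 s hs)
      (fun S S' hSS => by
        change Real.exp _ = Real.exp _
        rw [hSS j (by omega), hSS (j + k) (by omega)])
      (fun S => (Real.exp_pos _).le)
    rw [Th_eq] at h1
    refine ge_of_tendsto h1 ?_
    filter_upwards [eventually_ge_atTop (j + k)] with T hTT
    exact hT j k T hk.1 hTT
  calc (m : ℝ) * c = ∑ _k ∈ Finset.Icc 1 m, c := by simp
    _ ≤ _ := Finset.sum_le_sum hterm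

end Pool.Agent.Helper94.BW.LOW1
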