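import Pool.Agent.Helper51.BW.Spec
import Pool.Agent.Helper51.BW.Base

/-!
# BW swarm, part TYPE2: the walk estimate in the second case
-/

set_option autoImplicit false

open MeasureTheory Filter Topology

namespace Pool.Agent.Helper94.BW.TYPE2

open Pool.Agent.Helper51.BW

/-- TYPE2 -/
theorem main (hEA : S_EA) (hEB : S_EB) (hEC : S_EC) (hFAC : S_FAC) (hFUN : S_FUN)
    (hG1 : S_GEO1) (hG2 : S_GEO2) (hG3 : S_GEO3) (hG4 : S_GEO4) : S_TYPE2 := by
  intro d p h n u g gB hp hp1 hq1 hg hgB hu hn hnu hdp hdq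
  set q : D d → ℝ := fun e => p e * Real.exp (-(fn h e)) with hq
  have hqpos : ∀ e, 0 < q e := fun e => mul_pos (hp e) (Real.exp_pos _)
  obtain ⟨f1, f2, f3, f4, f5, f6, f7, f8, f9, f10, f11, f12⟩ :=
    hFUN d p q n u g gB hp hqpos hp1 hq1 hu hn hnu hdp hdq hg hgB
  obtain ⟨cB, hcB, c1, hc1, Dd, hDd, hB⟩ := hEB d q n u gB hqpos hq1 f8 f1 f4 hgB f6 f2 f10 f12 f3
  obtain ⟨rB, hB⟩ := hB (4 / gB) (by positivity)
  have hDpos : 0 < Dd := hc1.trans hDd
  have hMM : 0 < MM g gB Dd := by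
    unfold MM
    positivity
  obtain ⟨cA, hcA, rA, hA⟩ := hEA d p n u g hp hp1 f7 f1 hg f5 f2 f9 f11 f3 _ hMM
  obtain ⟨cC, hcC, rC, hC⟩ := hEC d p n u g hp hp1 f7 f1 f4 hg f9 _ hMM
  obtain ⟨r1, hr1⟩ := hG1 g gB c1 Dd hg f5 hgB f6 hc1 hDd
  obtain ⟨r2, hr2⟩ := hG2 d n u g gB c1 Dd hu hg f5 hgB f6 hc1 hDd
  obtain ⟨r3, hr3⟩ := hG3 d n u g gB c1 Dd hu hg f5 hgB f6 hc1 hDd
  obtain ⟨r4, hr4⟩ := hG4 d n u g gB c1 Dd hu hg f5 hgB f6 hc1 hDd
  refine ⟨cA * cB * cC, by positivity, c1, hc1, Dd, hDd, Dd + MM g gB Dd, by positivity,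
    MM g gB Dd + Dd, by positivity, rA + rB + rC + r1 + r2 + r3 + r4 + 1, fun r k => t0f g gB r k,
    ?_⟩
  intro r hr
  have hrpos : (0 : ℝ) < (r : ℝ) := by
    have : 0 < r := by omega
    exact_mod_cast this
  refine ⟨fun k hk1 hk2 => (hr1 r (by omega) k hk1 hk2).2.2, ?_⟩
  intro j T hj hT
  set TT : ℕ := ⌊MM g gB Dd * (r : ℝ) ^ 20⌋₊ with hTT
  have hTTle : (TT : ℝ) ≤ MM g gB Dd * (r : ℝ) ^ 20 := Nat.floor_le (by positivity)
  have hr20 : (0 : ℝ) < (r : ℝ) ^ 20 := by positivity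
  have hTTj : TT ≤ j := by
    have h1 : (TT : ℝ) ≤ j := by nlinarith
    exact_mod_cast h1
  have hterm : ∀ k ∈ Finset.Icc ⌈c1 * (r : ℝ) ^ 20⌉₊ ⌊Dd * (r : ℝ) ^ 20⌋₊,
      cA * (cC / (r : ℝ) ^ 10) * Pr q k (EvB n u gB (4 / gB) r k) ≤
      Ex p T (fun L => ind (Q2 u r j k (t0f g gB r k) T (pos L)) *
        Real.exp (ip h (pos L j - pos L (j + k)))) := by
    intro k hk
    rw [Finset.mem_Icc] at hk
    have hk1 : c1 * (r : ℝ) ^ 20 ≤ k := (Nat.le_ceil _).trans (by exact_mod_cast hk.1)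
    have hk2 : (k : ℝ) ≤ Dd * (r : ℝ) ^ 20 :=
      le_trans (by exact_mod_cast hk.2) (Nat.floor_le (by positivity))
    have hjkT : j + k + TT ≤ T := by
      have h1 : ((j + k + TT : ℕ) : ℝ) ≤ T := by
        push_cast
        nlinarith
      exact_mod_cast h1
    obtain ⟨m, hm⟩ : ∃ m, T = j + k + m := ⟨T - (j + k), by omega⟩
    have hTTm : TT ≤ m := by omega
    obtain ⟨g1, g2, -⟩ := hr1 r (by omega) k hk1 hk2
    have hQA : cA ≤ Pr p j (EvA n u g r (t0f g gB r k) TT j) :=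
      hA r (by omega) _ TT j hTTle g1 g2 hTTj
    have hQC : cC / (r : ℝ) ^ 10 ≤ Pr p m (EvC n u g r TT m) :=
      hC r (by omega) TT m hTTle hTTm
    have hfac := hFAC d p h j k m (fun L => Q2 u r j k (t0f g gB r k) T (pos L))
      (EvA n u g r (t0f g gB r k) TT j) (EvB n u gB (4 / gB) r k) (EvC n u g r TT m)
      (fun e => (hp e).le) (by
        intro lA lB lC hlA hlB hlC eA eB eC
        have hrel : Rel3 (pos (lA.reverse ++ lB.reverse ++ lC)) j k m lA lB lC := by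
          subst hlA hlB hlC
          exact rel3 lA lB lC
        have hle : t0f g gB r k ≤ TT := by omega
        have e1 := hr2 r (by omega) k hk1 hk2 j m hTTj hTTm _ lA lB lC hrel eA eB eC
        have e2 := hr3 r (by omega) k hk1 hk2 j m hTTj hTTm hle _ lA lB lC hrel eA eB eC e1
        obtain ⟨e3, e4, e5⟩ := hr4 r (by omega) k hk1 hk2 j m hTTj hTTm hle _ lA lB lC hrel eA eB
        change Q2 u r j k (t0f g gB r k) T _
        rw [hm]
        exact ⟨by omega, by omega, e2, e1, e3, e4, e5⟩)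
    rw [← hm] at hfac
    refine le_trans ?_ hfac
    have hPB : 0 ≤ Pr q k (EvB n u gB (4 / gB) r k) := Pr_nonneg _ (fun e => (hqpos e).le) _ _
    have hPA : 0 ≤ Pr p j (EvA n u g r (t0f g gB r k) TT j) := Pr_nonneg _ (fun e => (hp e).le) _ _
    calc cA * (cC / (r : ℝ) ^ 10) * Pr q k (EvB n u gB (4 / gB) r k)
        = cA * Pr q k (EvB n u gB (4 / gB) r k) * (cC / (r : ℝ) ^ 10) := by ring
      _ ≤ Pr p j (EvA n u g r (t0f g gB r k) TT j) * Pr q k (EvB n u gB (4 / gB) r k) *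
          Pr p m (EvC n u g r TT m) := by
        refine mul_le_mul (mul_le_mul_of_nonneg_right hQA hPB) hQC (by positivity)
          (mul_nonneg hPA hPB)
  refine le_trans ?_ (Finset.sum_le_sum hterm)
  rw [← Finset.mul_sum]
  have h1 := hB r (by omega)
  have h2 : cA * cB * cC = cA * (cC / (r : ℝ) ^ 10) * (cB * (r : ℝ) ^ 10) := by
    field_simp
  rw [h2]
  exact mul_le_mul_of_nonneg_left h1 (by positivity)

end Pool.Agent.Helper94.BW.TYPE2
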